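import Pool.Agent.R42.E6.Main

namespace Pool.Agent.Results.MP_e6b5d0_co.Unbounded

open Pool.Agent.R42.E6

/-- Negative answer to Q1, with `k = 8`: for every `n` there is a connected 8-regular
vertex-transitive graph with exactly two ends that is not `m`-Cayley for any `m ≤ n`. In
particular no number `f 8` is such that every such graph is `f 8`-Cayley. -/
theorem result : ∀ n : ℕ, ∃ (V : Type) (G : SimpleGraph V), G.Connected ∧ Regular G 8 ∧
    VertexTransitive G ∧ TwoEnded G ∧ ∀ m ≤ n, ¬ NCayley G m := by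
  intro n
  obtain ⟨V, G, h1, h2, h3, h4, h5⟩ := main n
  refine ⟨V, G, h1, h2, h3, h4, ?_⟩
  rintro m hm ⟨Γ, hΓ, hc⟩
  have h6 := h5 Γ hΓ
  rw [hc] at h6
  have h7 : n < m := by exact_mod_cast h6
  omega

end Pool.Agent.Results.MP_e6b5d0_co.Unbounded
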